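import Pool.Agent.Helper31.BE.Comm

/-!
# BE-6: one step for the class
-/

set_option autoImplicit false

namespace Pool.Agent.Helper31.BE

open Finset Pool.Agent.Helper27.BE

open Classical in
/-- the levels -/
noncomputable def lev (D : Finset ℕ) : ℕ → ℕ
  | 0 => 1
  | j + 1 => if lev D j ∈ D then lev D j + 2 else lev D j + 1

theorem lev_pos (D : Finset ℕ) (j : ℕ) : 1 ≤ lev D j := by
  induction j with
  | zero => exact le_rfl
  | succ j ih => unfold lev; split_ifs <;> omega

theorem mem_lev (G : Type) [Group G] (H : Subgroup G) (D : Finset ℕ) (hK : Kills G H D) (j : ℕ) :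
    ∀ x ∈ gam H (j + 1), (x : G) ∈ gam G (lev D j) := by
  induction j with
  | zero =>
    intro x _
    have h : gam G (lev D 0) = ⊤ := gam_one G
    rw [h]; exact Subgroup.mem_top _
  | succ j ih =>
    intro x hx
    rw [(gamCalc H).gen (j + 1) (by omega)] at hx
    induction hx using Subgroup.closure_induction with
    | mem z hz =>
      obtain ⟨a, y, hy, rfl⟩ := hz
      have h1 := ih y hy
      have e : ((cm a y : H) : G) = cm (a : G) (y : G) := rfl
      rw [e]
      unfold lev
      split_ifs with hD
      · exact hK _ hD _ a.2 _ h1
      · have h2 := gam_comm G 1 (lev D j) le_rfl (lev_pos D j) (a : G)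
          (by rw [gam_one]; exact Subgroup.mem_top _) (y : G) h1
        rw [add_comm] at h2
        exact h2
    | one => exact Subgroup.one_mem _
    | mul a b _ _ ha hb => exact Subgroup.mul_mem _ ha hb
    | inv a _ ha => exact Subgroup.inv_mem _ ha

theorem lev_count (D : Finset ℕ) (C j : ℕ) :
    C + 1 ≤ lev D j ∨ 2 * j + 1 ≤ lev D j + ((Icc 1 C \ D).filter (fun i => i < lev D j)).card := by
  induction j with
  | zero => right; unfold lev; omega
  | succ j ih =>
    rcases ih with h | h
    · left
      unfold lev
      split_ifs <;> omega
    · by_cases hC : C + 1 ≤ lev D j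
      · left
        unfold lev
        split_ifs <;> omega
      · right
        unfold lev
        split_ifs with hD
        · have h1 : ((Icc 1 C \ D).filter (fun i => i < lev D j)).card ≤
              ((Icc 1 C \ D).filter (fun i => i < lev D j + 2)).card := by
            apply card_le_card
            intro i hi
            rw [mem_filter] at hi ⊢
            exact ⟨hi.1, by omega⟩
          omega
        · have h1 : ((Icc 1 C \ D).filter (fun i => i < lev D j)).card + 1 ≤
              ((Icc 1 C \ D).filter (fun i => i < lev D j + 1)).card := by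
            have hnot : lev D j ∉ (Icc 1 C \ D).filter (fun i => i < lev D j) := by
              intro h
              exact absurd (mem_filter.1 h).2 (lt_irrefl _)
            rw [← card_insert_of_notMem hnot]
            apply card_le_card
            intro i hi
            rcases mem_insert.1 hi with rfl | hi
            · have := lev_pos D j
              exact mem_filter.2 ⟨mem_sdiff.2 ⟨mem_Icc.2 ⟨this, by omega⟩, hD⟩, by omega⟩
            · have := mem_filter.1 hi
              exact mem_filter.2 ⟨this.1, by omega⟩
          omega

theorem class_step (G : Type) [Group G] (H : Subgroup G) (D : Finset ℕ) (C k : ℕ)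
    (_hD : D ⊆ Icc 1 C) (hK : Kills G H D) (hC : gam G (C + 1) = ⊥)
    (hk : C + (Icc 1 C \ D).card ≤ 2 * k) : gam H (k + 1) = ⊥ := by
  have h1 : C + 1 ≤ lev D k := by
    rcases lev_count D C k with h | h
    · exact h
    · have h2 : ((Icc 1 C \ D).filter (fun i => i < lev D k)).card ≤ (Icc 1 C \ D).card :=
        card_filter_le _ _
      omega
  rw [eq_bot_iff]
  intro x hx
  have h2 := gam_anti G h1 (mem_lev G H D hK k x hx)
  rw [hC, Subgroup.mem_bot] at h2
  rw [Subgroup.mem_bot]
  exact Subtype.ext h2

end Pool.Agent.Helper31.BE
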