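import Pool.Agent.Helper31.BE.Comm

/-!
# BE-17: powers and commutators in the group algebra
-/

set_option autoImplicit false

namespace Pool.Agent.Helper31.BE

open Pool.Agent.Helper27.BE

section closure
variable {p : ℕ} [Fact p.Prime] {B : Type} [Group B]

private theorem dlt_mul (x y : B) :
    dlt p B (x * y) = dlt p B x + dlt p B y + dlt p B x * dlt p B y := by
  unfold dlt
  rw [map_mul]
  noncomm_ring

private theorem dlt_one : dlt p B 1 = 0 := by
  unfold dlt
  rw [map_one, sub_self]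

private theorem of_eq (x : B) : MonoidAlgebra.of (ZMod p) B x = dlt p B x + 1 := by
  unfold dlt; rw [sub_add_cancel]

private theorem dlt_mem_aug (x : B) : dlt p B x ∈ aug p B :=
  Submodule.subset_span ⟨x, rfl⟩

private theorem span_of : Submodule.span (ZMod p) (Set.range (MonoidAlgebra.of (ZMod p) B)) =
    (⊤ : Submodule (ZMod p) (MonoidAlgebra (ZMod p) B)) := by
  rw [eq_top_iff]
  intro a _
  induction a using MonoidAlgebra.induction_on with
  | of g => exact Submodule.subset_span ⟨g, rfl⟩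
  | add a b ha hb => exact Submodule.add_mem _ (ha trivial) (hb trivial)
  | smul c a ha => exact Submodule.smul_mem _ _ (ha trivial)

private theorem top_mul_aug :
    (⊤ : Submodule (ZMod p) (MonoidAlgebra (ZMod p) B)) * aug p B ≤ aug p B := by
  rw [← span_of]
  unfold aug
  rw [Submodule.span_mul_span, Submodule.span_le]
  rintro _ ⟨_, ⟨h, rfl⟩, _, ⟨g, rfl⟩, rfl⟩
  have e : MonoidAlgebra.of (ZMod p) B h * dlt p B g = dlt p B (h * g) - dlt p B h := by
    rw [of_eq, dlt_mul]; noncomm_ring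
  show MonoidAlgebra.of (ZMod p) B h * dlt p B g ∈ _
  rw [e]
  exact Submodule.sub_mem _ (Submodule.subset_span ⟨_, rfl⟩) (Submodule.subset_span ⟨_, rfl⟩)

private theorem aug_mul_top :
    aug p B * (⊤ : Submodule (ZMod p) (MonoidAlgebra (ZMod p) B)) ≤ aug p B := by
  rw [← span_of]
  unfold aug
  rw [Submodule.span_mul_span, Submodule.span_le]
  rintro _ ⟨_, ⟨g, rfl⟩, _, ⟨h, rfl⟩, rfl⟩
  have e : dlt p B g * MonoidAlgebra.of (ZMod p) B h = dlt p B (g * h) - dlt p B h := by
    rw [of_eq, dlt_mul]; noncomm_ring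
  show dlt p B g * MonoidAlgebra.of (ZMod p) B h ∈ _
  rw [e]
  exact Submodule.sub_mem _ (Submodule.subset_span ⟨_, rfl⟩) (Submodule.subset_span ⟨_, rfl⟩)

private theorem Fil_zero' : Fil p B 0 = ⊤ := by
  unfold Fil; rw [if_pos rfl]

private theorem Fil_succ' (n : ℕ) : Fil p B (n + 1) = aug p B ^ (n + 1) := by
  unfold Fil; rw [if_neg (Nat.succ_ne_zero n)]

private theorem Fil_mul' (i j : ℕ) : Fil p B i * Fil p B j ≤ Fil p B (i + j) := by
  rcases i with _ | i
  · rw [Fil_zero', zero_add]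
    rcases j with _ | j
    · rw [Fil_zero']; exact le_top
    · rw [Fil_succ', pow_succ', ← mul_assoc]
      exact mul_le_mul' top_mul_aug le_rfl
  · rcases j with _ | j
    · rw [Fil_zero', add_zero, Fil_succ', pow_succ, mul_assoc]
      exact mul_le_mul' le_rfl aug_mul_top
    · rw [Fil_succ', Fil_succ', show i + 1 + (j + 1) = (i + 1 + j) + 1 by ring, Fil_succ',
        ← pow_add]
      exact le_of_eq (by congr 1)

private theorem mul_mem_Fil {i j : ℕ} {a b : MonoidAlgebra (ZMod p) B} (ha : a ∈ Fil p B i)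
    (hb : b ∈ Fil p B j) : a * b ∈ Fil p B (i + j) :=
  Fil_mul' i j (Submodule.mul_mem_mul ha hb)

private theorem mem_Fil_zero (a : MonoidAlgebra (ZMod p) B) : a ∈ Fil p B 0 := by
  rw [Fil_zero']; trivial

private theorem Fil_le {m n : ℕ} (h : m ≤ n) : Fil p B n ≤ Fil p B m := by
  obtain ⟨k, rfl⟩ := Nat.exists_eq_add_of_le h
  rcases m with _ | m
  · rw [Fil_zero']; exact le_top
  · rw [show m + 1 + k = m + k + 1 by ring, Fil_succ', Fil_succ',
      show m + k + 1 = (m + 1) + k by ring, pow_add, pow_succ, mul_assoc]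
    exact mul_le_mul' le_rfl ((mul_le_mul' le_rfl le_top).trans aug_mul_top)

private theorem dlt_mem_Fil_one (x : B) : dlt p B x ∈ Fil p B 1 := by
  rw [Fil_succ', zero_add, pow_one]; exact dlt_mem_aug x

private theorem dlt_mul_mem {m : ℕ} {a b : B} (ha : dlt p B a ∈ Fil p B m)
    (hb : dlt p B b ∈ Fil p B m) : dlt p B (a * b) ∈ Fil p B m := by
  rw [dlt_mul]
  refine Submodule.add_mem _ (Submodule.add_mem _ ha hb) ?_
  exact Fil_le (by omega) (mul_mem_Fil ha hb)

private theorem dlt_inv_mem {m : ℕ} {a : B} (ha : dlt p B a ∈ Fil p B m) :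
    dlt p B a⁻¹ ∈ Fil p B m := by
  have e : dlt p B a⁻¹ = - (dlt p B a * MonoidAlgebra.of (ZMod p) B a⁻¹) := by
    have h : MonoidAlgebra.of (ZMod p) B a * MonoidAlgebra.of (ZMod p) B a⁻¹ = 1 := by
      rw [← map_mul, mul_inv_cancel, map_one]
    have h2 : dlt p B a * MonoidAlgebra.of (ZMod p) B a⁻¹ =
        1 - MonoidAlgebra.of (ZMod p) B a⁻¹ := by
      unfold dlt
      rw [sub_mul, h, one_mul]
    rw [h2]; unfold dlt; noncomm_ring
  rw [e]
  exact Submodule.neg_mem _ (by simpa using mul_mem_Fil ha (mem_Fil_zero _))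

/-- the commutator identity -/
private theorem comm_eq (x y : B) :
    dlt p B x * dlt p B y - dlt p B y * dlt p B x =
      dlt p B (cm x y) + dlt p B (cm x y) * dlt p B (y * x) := by
  have h : MonoidAlgebra.of (ZMod p) B (cm x y) * MonoidAlgebra.of (ZMod p) B (y * x) =
      MonoidAlgebra.of (ZMod p) B (x * y) := by
    rw [← map_mul]; congr 1; unfold cm; group
  have h1 : dlt p B x * dlt p B y - dlt p B y * dlt p B x =
      MonoidAlgebra.of (ZMod p) B (x * y) - MonoidAlgebra.of (ZMod p) B (y * x) := by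
    unfold dlt; rw [map_mul, map_mul]; noncomm_ring
  have h2 : dlt p B (cm x y) + dlt p B (cm x y) * dlt p B (y * x) =
      MonoidAlgebra.of (ZMod p) B (cm x y) * MonoidAlgebra.of (ZMod p) B (y * x) -
        MonoidAlgebra.of (ZMod p) B (y * x) := by
    unfold dlt; noncomm_ring
  rw [h1, h2, h]

private theorem comm_eq' (x y : B) :
    dlt p B (cm x y) = (dlt p B x * dlt p B y - dlt p B y * dlt p B x) *
      MonoidAlgebra.of (ZMod p) B (y * x)⁻¹ := by
  have h : MonoidAlgebra.of (ZMod p) B (y * x) * MonoidAlgebra.of (ZMod p) B (y * x)⁻¹ = 1 := by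
    rw [← map_mul, mul_inv_cancel, map_one]
  rw [comm_eq]
  have h2 : dlt p B (cm x y) + dlt p B (cm x y) * dlt p B (y * x) =
      dlt p B (cm x y) * MonoidAlgebra.of (ZMod p) B (y * x) := by
    unfold dlt; noncomm_ring
  rw [h2, mul_assoc, h, mul_one]

theorem dlt_gam_mem {j : ℕ} {x : B} (hx : x ∈ gam B j) : dlt p B x ∈ Fil p B j := by
  rcases j with _ | j
  · exact mem_Fil_zero _
  induction j generalizing x with
  | zero => exact dlt_mem_Fil_one x
  | succ j ih =>
    rw [(gamCalc B).gen (j + 1) (by omega)] at hx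
    induction hx using Subgroup.closure_induction with
    | mem z hz =>
      obtain ⟨a, y, hy, rfl⟩ := hz
      have h1 := ih hy
      have ha := dlt_mem_Fil_one (p := p) a
      rw [comm_eq']
      have h2 : dlt p B a * dlt p B y - dlt p B y * dlt p B a ∈ Fil p B (j + 1 + 1) := by
        refine Submodule.sub_mem _ ?_ ?_
        · have := mul_mem_Fil ha h1
          rwa [show 1 + (j + 1) = j + 1 + 1 by ring] at this
        · exact mul_mem_Fil h1 ha
      simpa using mul_mem_Fil h2 (mem_Fil_zero _)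
    | one => rw [dlt_one]; exact Submodule.zero_mem _
    | mul a b _ _ ha hb => exact dlt_mul_mem ha hb
    | inv a _ ha => exact dlt_inv_mem ha

private theorem charP_alg : CharP (MonoidAlgebra (ZMod p) B) p :=
  charP_of_injective_algebraMap' (ZMod p) p

private theorem charP_end : CharP (Module.End (ZMod p) (MonoidAlgebra (ZMod p) B)) p :=
  charP_of_injective_algebraMap' (ZMod p) p

theorem dlt_pow (x : B) (k : ℕ) : dlt p B (x ^ p ^ k) = dlt p B x ^ p ^ k := by
  have : CharP (MonoidAlgebra (ZMod p) B) p := charP_alg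
  unfold dlt
  rw [sub_pow_char_pow_of_commute _ _ (Commute.one_right _), one_pow, map_pow]

/-- `a ↦ X a - a X` -/
private noncomputable def adm (X : MonoidAlgebra (ZMod p) B) :
    Module.End (ZMod p) (MonoidAlgebra (ZMod p) B) :=
  LinearMap.mulLeft (ZMod p) X - LinearMap.mulRight (ZMod p) X

private theorem adm_apply (X a : MonoidAlgebra (ZMod p) B) : adm X a = X * a - a * X := rfl

private theorem adm_pow (X : MonoidAlgebra (ZMod p) B) (k : ℕ) :
    adm (X ^ p ^ k) = adm X ^ p ^ k := by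
  have : CharP (Module.End (ZMod p) (MonoidAlgebra (ZMod p) B)) p := charP_end
  unfold adm
  rw [sub_pow_char_pow_of_commute _ _ (LinearMap.commute_mulLeft_right _ _),
    LinearMap.pow_mulLeft, LinearMap.pow_mulRight]

private theorem adm_mem {i m : ℕ} {X a : MonoidAlgebra (ZMod p) B} (hX : X ∈ Fil p B i)
    (ha : a ∈ Fil p B m) : adm X a ∈ Fil p B (i + m) := by
  rw [adm_apply]
  refine Submodule.sub_mem _ (mul_mem_Fil hX ha) ?_
  rw [add_comm]
  exact mul_mem_Fil ha hX

private theorem adm_iter {i m : ℕ} (hi : 1 ≤ i) (hm : 1 ≤ m) {x : B} (hx : x ∈ gam B i)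
    (n : ℕ) : ∀ (a : MonoidAlgebra (ZMod p) B) (z : B), z ∈ gam B m →
      a - dlt p B z ∈ Fil p B (m + 1) →
      ∃ z' ∈ gam B (n * i + m), (adm (dlt p B x) ^ n) a - dlt p B z' ∈ Fil p B (n * i + m + 1) := by
  induction n with
  | zero =>
    intro a z hz ha
    refine ⟨z, by simpa using hz, by simpa using ha⟩
  | succ n ih =>
    intro a z hz ha
    obtain ⟨z', hz', h⟩ := ih a z hz ha
    refine ⟨cm x z', ?_, ?_⟩
    · have := gam_comm B i (n * i + m) hi (by omega) x hx z' hz'
      rwa [show i + (n * i + m) = (n + 1) * i + m by ring] at this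
    · have hX : dlt p B x ∈ Fil p B i := dlt_gam_mem hx
      have e : (adm (dlt p B x) ^ (n + 1)) a - dlt p B (cm x z') =
          adm (dlt p B x) ((adm (dlt p B x) ^ n) a - dlt p B z') +
            dlt p B (cm x z') * dlt p B (z' * x) := by
        rw [pow_succ', Module.End.mul_apply, map_sub, adm_apply (dlt p B x) (dlt p B z'), comm_eq]
        abel
      rw [e]
      refine Submodule.add_mem _ ?_ ?_
      · have := adm_mem hX h
        rwa [show i + (n * i + m + 1) = (n + 1) * i + m + 1 by ring] at this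
      · have h1 : dlt p B (cm x z') ∈ Fil p B (i + (n * i + m)) :=
          dlt_gam_mem (gam_comm B i (n * i + m) hi (by omega) x hx z' hz')
        have h2 := mul_mem_Fil h1 (dlt_mem_Fil_one (p := p) (z' * x))
        rwa [show i + (n * i + m) + 1 = (n + 1) * i + m + 1 by ring] at h2

theorem comm_mem {i j k l : ℕ} (hi : 1 ≤ i) (hj : 1 ≤ j) {x y : B} (hx : x ∈ gam B i)
    (hy : y ∈ gam B j) :
    ∃ z ∈ gam B (i * p ^ k + j * p ^ l),
      dlt p B (x ^ p ^ k) * dlt p B (y ^ p ^ l) - dlt p B (y ^ p ^ l) * dlt p B (x ^ p ^ k) -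
        dlt p B z ∈ Fil p B (i * p ^ k + j * p ^ l + 1) := by
  have hp : 0 < p := (Fact.out : p.Prime).pos
  obtain ⟨q, hq⟩ : ∃ q, p ^ l = q + 1 := ⟨p ^ l - 1, by
    have := Nat.pos_of_ne_zero (pow_ne_zero l hp.ne')
    omega⟩
  -- first step
  obtain ⟨c, hc, h1⟩ := adm_iter (p := p) hi hj hx (p ^ k) (dlt p B y) y hy
    (by rw [sub_self]; exact Submodule.zero_mem _)
  obtain ⟨z, hz, h2⟩ := adm_iter (p := p) hj (by omega : 1 ≤ p ^ k * i + j) hy q
    ((adm (dlt p B x) ^ p ^ k) (dlt p B y)) c hc h1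
  have e1 : q * j + (p ^ k * i + j) = i * p ^ k + j * p ^ l := by rw [hq]; ring
  rw [e1] at hz h2
  refine ⟨z, hz, ?_⟩
  have e2 : dlt p B (x ^ p ^ k) * dlt p B (y ^ p ^ l) -
      dlt p B (y ^ p ^ l) * dlt p B (x ^ p ^ k) =
      (adm (dlt p B y) ^ q) ((adm (dlt p B x) ^ p ^ k) (dlt p B y)) := by
    have h3 : (adm (dlt p B x) ^ p ^ k) (dlt p B y) =
        - adm (dlt p B y) (dlt p B x ^ p ^ k) := by
      rw [← adm_pow, adm_apply, adm_apply]; abel
    rw [h3, map_neg, ← Module.End.mul_apply, ← pow_succ, ← hq, ← adm_pow, adm_apply, dlt_pow,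
      dlt_pow]
    abel
  rw [e2]
  exact h2

end closure

end Pool.Agent.Helper31.BE
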