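import Pool.Agent.Helper27.BE.Defs
import Pool.Agent.Helper89.MM.Lcs

/-!
# BE-4: commutator calculus for the lower central series
-/

set_option autoImplicit false

namespace Pool.Agent.Helper31.BE

open Pool.Agent.Helper27.BE
open scoped commutatorElement

section aux

variable {Q : Type} [Group Q]

theorem mul_left_aux (x x' y : Q) (h : ∀ g, Commute (cm x' y) g) :
    cm (x * x') y = cm x y * cm x' y := by
  have h1 : cm (x * x') y = x * cm x' y * x⁻¹ * cm x y := by
    simp only [cm]; group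
  rw [h1, ← (h x).eq, mul_assoc (cm x' y) x x⁻¹, mul_inv_cancel, mul_one, (h _).eq]

theorem mul_right_aux (x y y' : Q) (h : ∀ g, Commute (cm x y') g) :
    cm x (y * y') = cm x y * cm x y' := by
  have h1 : cm x (y * y') = cm x y * (y * cm x y' * y⁻¹) := by
    simp only [cm]; group
  rw [h1, ← (h y).eq, mul_assoc (cm x y') y y⁻¹, mul_inv_cancel, mul_one]

theorem jac_aux (X Y Z : Q) (hUV : Commute (cm X Y) (cm X Z)) (hVW : Commute (cm X Z) (cm Y Z))
    (hUW : Commute (cm X Y) (cm Y Z)) (hA : ∀ g, Commute (cm Y (cm X Z)) g)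
    (hB : ∀ g, Commute (cm (cm X Y) Z) g) :
    cm X (cm Y Z) = cm (cm X Y) Z * cm Y (cm X Z) := by
  have h1 : X * cm Y Z * X⁻¹ =
      cm X Y * Y * cm X Z * Z * Y⁻¹ * (cm X Y)⁻¹ * Z⁻¹ * (cm X Z)⁻¹ := by
    simp only [cm]; group
  set U := cm X Y with hU
  set V := cm X Z with hV
  set W := cm Y Z with hW
  have hYV : Y * V = cm Y V * V * Y := by simp only [cm]; group
  have hUZ : U⁻¹ * Z⁻¹ = Z⁻¹ * U⁻¹ * cm U Z := by simp only [cm]; group
  have h2 : U * Y * V * Z * Y⁻¹ * U⁻¹ * Z⁻¹ * V⁻¹ = cm Y V * cm U Z * W := by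
    calc U * Y * V * Z * Y⁻¹ * U⁻¹ * Z⁻¹ * V⁻¹
        = U * (Y * V) * Z * Y⁻¹ * (U⁻¹ * Z⁻¹) * V⁻¹ := by group
      _ = U * (cm Y V * V * Y) * Z * Y⁻¹ * (Z⁻¹ * U⁻¹ * cm U Z) * V⁻¹ := by rw [hYV, hUZ]
      _ = (U * cm Y V) * V * W * U⁻¹ * (cm U Z * V⁻¹) := by
          rw [hW]; simp only [cm]; group
      _ = (cm Y V * U) * V * W * U⁻¹ * (V⁻¹ * cm U Z) := by
          rw [(hA U).eq, (hB V⁻¹).eq]
      _ = cm Y V * (U * (V * W) * U⁻¹ * V⁻¹) * cm U Z := by group
      _ = cm Y V * (U * W * V * U⁻¹ * V⁻¹) * cm U Z := by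
          rw [hVW.eq, ← mul_assoc U W V]
      _ = cm Y V * (W * (U * V) * U⁻¹ * V⁻¹) * cm U Z := by
          rw [hUW.eq, mul_assoc W U V]
      _ = cm Y V * W * cm U Z := by
          rw [hUV.eq]; group
      _ = cm Y V * cm U Z * W := by
          rw [mul_assoc, ← (hB W).eq, ← mul_assoc]
  have h3 : cm X W = X * W * X⁻¹ * W⁻¹ := rfl
  rw [h3, h1, h2, mul_assoc, mul_inv_cancel, mul_one, (hA _).eq]

end aux

theorem map_cm {G H : Type} [Group G] [Group H] (f : G →* H) (x y : G) :
    f (cm x y) = cm (f x) (f y) := by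
  simp only [cm, map_mul, map_inv]

theorem gam_comm (G : Type) [Group G] (i j : ℕ) (hi : 1 ≤ i) (hj : 1 ≤ j) (x : G)
    (hx : x ∈ gam G i) (y : G) (hy : y ∈ gam G j) : cm x y ∈ gam G (i + j) := by
  obtain ⟨i, rfl⟩ : ∃ k, i = k + 1 := ⟨i - 1, by omega⟩
  obtain ⟨j, rfl⟩ : ∃ k, j = k + 1 := ⟨j - 1, by omega⟩
  have h := Helper89.MM.lcs_comm (⊤ : Subgroup G) i j
  have e : gam G (i + 1 + (j + 1)) = (⊤ : Subgroup G).lowerCentralSeries (i + j + 1) := by
    unfold gam; congr 1; omega
  rw [e]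
  exact h (Subgroup.commutator_mem_commutator hx hy)

theorem gam_anti (G : Type) [Group G] {m n : ℕ} (h : m ≤ n) : gam G n ≤ gam G m := by
  unfold gam
  exact Subgroup.lowerCentralSeries_antitone (⊤ : Subgroup G) (by omega)

theorem gam_one (G : Type) [Group G] : gam G 1 = ⊤ := by
  unfold gam
  exact Subgroup.lowerCentralSeries_zero _

instance gam_normal (G : Type) [Group G] (n : ℕ) : (gam G n).Normal := by
  unfold gam; infer_instance

theorem central_of_mem (G : Type) [Group G] (n m : ℕ) (hn : 1 ≤ n) (hm : m ≤ n + 1) (z : G)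
    (hz : z ∈ gam G n) (g : G ⧸ gam G m) :
    Commute (QuotientGroup.mk' (gam G m) z) g := by
  obtain ⟨g, rfl⟩ := QuotientGroup.mk'_surjective (gam G m) g
  have h1 : cm z g ∈ gam G m := by
    have h2 := gam_comm G n 1 hn le_rfl z hz g (by rw [gam_one]; exact Subgroup.mem_top _)
    exact gam_anti G hm h2
  have h3 : QuotientGroup.mk' (gam G m) (cm z g) = 1 := by
    rw [← MonoidHom.mem_ker, QuotientGroup.ker_mk']
    exact h1
  rw [map_cm] at h3
  have h4 : QuotientGroup.mk' (gam G m) z * QuotientGroup.mk' (gam G m) g =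
      QuotientGroup.mk' (gam G m) g * QuotientGroup.mk' (gam G m) z := by
    unfold cm at h3
    rw [mul_inv_eq_one, mul_inv_eq_iff_eq_mul] at h3
    exact h3
  exact h4

theorem commute_of_mem (G : Type) [Group G] (i j m : ℕ) (hi : 1 ≤ i) (hj : 1 ≤ j)
    (hm : m ≤ i + j) (x y : G) (hx : x ∈ gam G i) (hy : y ∈ gam G j) :
    Commute (QuotientGroup.mk' (gam G m) x) (QuotientGroup.mk' (gam G m) y) := by
  have h1 : cm x y ∈ gam G m := gam_anti G hm (gam_comm G i j hi hj x hx y hy)
  have h3 : QuotientGroup.mk' (gam G m) (cm x y) = 1 := by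
    rw [← MonoidHom.mem_ker, QuotientGroup.ker_mk']
    exact h1
  rw [map_cm] at h3
  unfold cm at h3
  rw [mul_inv_eq_one, mul_inv_eq_iff_eq_mul] at h3
  exact h3

theorem mem_of_mk_eq {G : Type} [Group G] (N : Subgroup G) [N.Normal] {x y : G}
    (h : QuotientGroup.mk' N x = QuotientGroup.mk' N y) : x⁻¹ * y ∈ N :=
  QuotientGroup.eq.1 h

theorem gamCalc (G : Type) [Group G] : GamCalc G where
  comm := fun i j hi hj x hx y hy => gam_comm G i j hi hj x hx y hy
  mul_left := by
    intro i j hi hj x hx x' hx' y hy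
    apply mem_of_mk_eq
    rw [map_mul, map_cm, map_cm, map_cm, map_mul]
    apply mul_left_aux
    intro g
    rw [← map_cm]
    exact central_of_mem G (i + j) (i + j + 1) (by omega) le_rfl _ (gam_comm G i j hi hj x' hx' y hy) g
  mul_right := by
    intro i j hi hj x hx y hy y' hy'
    apply mem_of_mk_eq
    rw [map_mul, map_cm, map_cm, map_cm, map_mul]
    apply mul_right_aux
    intro g
    rw [← map_cm]
    exact central_of_mem G (i + j) (i + j + 1) (by omega) le_rfl _ (gam_comm G i j hi hj x hx y' hy') g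
  jacobi := by
    intro a b c ha hb hc x hx y hy z hz
    apply mem_of_mk_eq
    have hU := gam_comm G a b ha hb x hx y hy
    have hV := gam_comm G a c ha hc x hx z hz
    have hW := gam_comm G b c hb hc y hy z hz
    rw [map_mul]
    simp only [map_cm]
    apply jac_aux
    · rw [← map_cm, ← map_cm]
      exact commute_of_mem G (a + b) (a + c) _ (by omega) (by omega) (by omega) _ _ hU hV
    · rw [← map_cm, ← map_cm]
      exact commute_of_mem G (a + c) (b + c) _ (by omega) (by omega) (by omega) _ _ hV hW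
    · rw [← map_cm, ← map_cm]
      exact commute_of_mem G (a + b) (b + c) _ (by omega) (by omega) (by omega) _ _ hU hW
    · intro g
      rw [← map_cm, ← map_cm]
      exact central_of_mem G (b + (a + c)) _ (by omega) (by omega) _
        (gam_comm G b (a + c) hb (by omega) y hy _ hV) g
    · intro g
      rw [← map_cm, ← map_cm]
      exact central_of_mem G (a + b + c) _ (by omega) (by omega) _
        (gam_comm G (a + b) c (by omega) hc _ hU z hz) g
  gen := by
    intro i hi
    obtain ⟨i, rfl⟩ : ∃ k, i = k + 1 := ⟨i - 1, by omega⟩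
    have e1 : gam G (i + 1 + 1) = ⁅gam G (i + 1), (⊤ : Subgroup G)⁆ := by
      have h := Subgroup.lowerCentralSeries_succ (⊤ : Subgroup G) i
      exact h
    apply le_antisymm
    · rw [e1, Subgroup.commutator_le]
      intro g hg h _
      have h1 : ⁅g, h⁆ = (cm h g)⁻¹ := by
        rw [commutatorElement_def]; simp only [cm]; group
      rw [h1]
      exact Subgroup.inv_mem _ (Subgroup.subset_closure ⟨h, g, hg, rfl⟩)
    · rw [Subgroup.closure_le]
      rintro z ⟨x, y, hy, rfl⟩
      have h2 := gam_comm G 1 (i + 1) le_rfl (by omega) x (by rw [gam_one]; exact Subgroup.mem_top _) y hy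
      have e : 1 + (i + 1) = i + 1 + 1 := by omega
      rw [e] at h2
      exact h2

end Pool.Agent.Helper31.BE
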