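import Pool.Agent.Helper31.BE.Comm

/-!
# BE-12: iteration of the halving step
-/

set_option autoImplicit false

namespace Pool.Agent.Helper31.BE

open Pool.Agent.Helper27.BE

theorem gam_sub_iff {G : Type} [Group G] (H : Subgroup G) (k : ℕ) :
    gam H (k + 1) = ⊥ ↔ H.lowerCentralSeries k = ⊥ := by
  have h := Subgroup.top_subtype_lowerCentralSeries H k
  have e : gam H (k + 1) = (⊤ : Subgroup H).lowerCentralSeries k := rfl
  rw [e, ← h, Subgroup.map_eq_bot_iff_of_injective _ H.subtype_injective]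

theorem gam_map_sub {G : Type} [Group G] (H₁ : Subgroup G) (H₂ : Subgroup H₁) (k : ℕ)
    (h : gam H₂ (k + 1) = ⊥) : gam (H₂.map H₁.subtype) (k + 1) = ⊥ := by
  rw [gam_sub_iff] at h ⊢
  have h1 := Subgroup.map_lowerCentralSeries H₂ H₁.subtype k
  rw [← h1, h, Subgroup.map_bot]

theorem iterate_aux {p : ℕ} (hp : p.Prime) {ε : ℝ} (hε : 0 < ε) (hε2 : ε ≤ 1 / 40)
    (hhalf : ∃ n₀ : ℕ, ∀ (n C : ℕ), n₀ ≤ n →
      ∀ (G : Type) [Group G], Nat.card G = p ^ n → gam G (C + 1) = ⊥ →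
      ∃ (H : Subgroup G) (s k : ℕ), H.index = p ^ s ∧ (s : ℝ) ≤ 20 * ε * n ∧
        (2 * k : ℝ) ≤ C + ε * n + 2 ∧ gam H (k + 1) = ⊥) (t : ℕ) :
    ∃ n₁ : ℕ, ∀ (n C : ℕ), n₁ ≤ n →
      ∀ (G : Type) [Group G], Nat.card G = p ^ n → gam G (C + 1) = ⊥ →
      ∃ (H : Subgroup G) (s k : ℕ), H.index = p ^ s ∧ (s : ℝ) ≤ 20 * ε * t * n ∧
        (k : ℝ) ≤ C / 2 ^ t + (1 - 1 / 2 ^ t) * (ε * n + 2) ∧ gam H (k + 1) = ⊥ := by
  obtain ⟨n₀, hn₀⟩ := hhalf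
  induction t with
  | zero =>
    refine ⟨0, fun n C _ G _ hG hC => ⟨⊤, 0, C, ?_, ?_, ?_, ?_⟩⟩
    · rw [Subgroup.index_top, pow_zero]
    · simp
    · simp
    · rw [gam_sub_iff]; exact hC
  | succ t ih =>
    obtain ⟨n₁, hn₁⟩ := ih
    refine ⟨max n₀ (2 * n₁), fun n C hn G _ hG hC => ?_⟩
    obtain ⟨H₁, s₁, k₁, hi₁, hs₁, hk₁, hg₁⟩ := hn₀ n C (le_trans (le_max_left _ _) hn) G hG hC
    have hn2 : 2 * n₁ ≤ n := le_trans (le_max_right _ _) hn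
    have hs2 : (s₁ : ℝ) ≤ n / 2 := by
      have : 20 * ε * n ≤ (1 / 2) * n := by
        apply mul_le_mul_of_nonneg_right _ (Nat.cast_nonneg n)
        linarith
      linarith
    have hs3 : 2 * s₁ ≤ n := by
      have : (2 * s₁ : ℝ) ≤ n := by linarith
      exact_mod_cast this
    have hcard : Nat.card H₁ = p ^ (n - s₁) := by
      have h1 := H₁.card_mul_index
      rw [hi₁, hG] at h1
      have h2 : p ^ n = p ^ (n - s₁) * p ^ s₁ := by
        rw [← pow_add]; congr 1; omega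
      rw [h2] at h1
      exact Nat.eq_of_mul_eq_mul_right (pow_pos hp.pos _) h1
    obtain ⟨H₂, s₂, k₂, hi₂, hs₂, hk₂, hg₂⟩ := hn₁ (n - s₁) k₁ (by omega) H₁ hcard hg₁
    have hle : ((n - s₁ : ℕ) : ℝ) ≤ n := by exact_mod_cast Nat.sub_le n s₁
    refine ⟨H₂.map H₁.subtype, s₂ + s₁, k₂, ?_, ?_, ?_, gam_map_sub H₁ H₂ k₂ hg₂⟩
    · rw [Subgroup.index_map_subtype, hi₂, hi₁, pow_add]
    · push_cast
      have h1 : 20 * ε * t * ((n - s₁ : ℕ) : ℝ) ≤ 20 * ε * t * n :=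
        mul_le_mul_of_nonneg_left hle (by positivity)
      have h2 : 20 * ε * (t + 1) * n = 20 * ε * t * n + 20 * ε * n := by ring
      rw [h2]
      linarith
    · have hpow : (0 : ℝ) < 2 ^ t := by positivity
      have hinv : (1 : ℝ) / 2 ^ t ≤ 1 := by
        rw [div_le_one hpow]
        exact one_le_pow₀ (by norm_num)
      have h1 : (1 - 1 / 2 ^ t) * (ε * ((n - s₁ : ℕ) : ℝ) + 2) ≤
          (1 - 1 / (2 : ℝ) ^ t) * (ε * n + 2) := by
        apply mul_le_mul_of_nonneg_left _ (by linarith)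
        have := mul_le_mul_of_nonneg_left hle hε.le
        linarith
      have h2 : (k₁ : ℝ) / 2 ^ t ≤ (C + ε * n + 2) / 2 / 2 ^ t := by
        apply div_le_div_of_nonneg_right _ hpow.le
        linarith
      have h3 : (C : ℝ) / 2 ^ (t + 1) + (1 - 1 / 2 ^ (t + 1)) * (ε * n + 2) =
          (C + ε * n + 2) / 2 / 2 ^ t + (1 - 1 / (2 : ℝ) ^ t) * (ε * n + 2) := by
        rw [pow_succ]
        field_simp
        ring
      rw [h3]
      linarith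

theorem iterate {p : ℕ} (hp : p.Prime)
    (hcl : ∀ (n : ℕ) (G : Type) [Group G], Nat.card G = p ^ n → gam G (n + 1) = ⊥)
    (hhalf : ∀ ε : ℝ, 0 < ε → ε ≤ 1 / 2 → ∃ n₀ : ℕ, ∀ (n C : ℕ), n₀ ≤ n →
      ∀ (G : Type) [Group G], Nat.card G = p ^ n → gam G (C + 1) = ⊥ →
      ∃ (H : Subgroup G) (s k : ℕ), H.index = p ^ s ∧ (s : ℝ) ≤ 20 * ε * n ∧
        (2 * k : ℝ) ≤ C + ε * n + 2 ∧ gam H (k + 1) = ⊥) (δ : ℝ) (hδ : 0 < δ) :
    ∃ n₁ : ℕ, ∀ n, n₁ ≤ n → ∀ (G : Type) [Group G], Nat.card G = p ^ n →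
      ∃ (H : Subgroup G) (s k : ℕ), H.index = p ^ s ∧ (s : ℝ) ≤ δ * n ∧ (k : ℝ) ≤ δ * n ∧
        gam H (k + 1) = ⊥ := by
  obtain ⟨t, ht⟩ : ∃ t : ℕ, (1 / 2 : ℝ) ^ t < δ / 4 :=
    exists_pow_lt_of_lt_one (by positivity) (by norm_num)
  set ε : ℝ := min (1 / 40) (δ / (40 * (t + 1))) with hεdef
  have hε : 0 < ε := lt_min (by norm_num) (by positivity)
  have hε1 : ε ≤ 1 / 40 := min_le_left _ _
  have hε2 : ε * (40 * (t + 1)) ≤ δ := by
    have h := min_le_right (1 / 40 : ℝ) (δ / (40 * (t + 1)))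
    rw [← hεdef, le_div_iff₀ (by positivity)] at h
    exact h
  obtain ⟨n₁, hn₁⟩ := iterate_aux hp hε hε1 (hhalf ε hε (by linarith)) t
  obtain ⟨n₂, hn₂⟩ := exists_nat_gt (4 / δ)
  refine ⟨max n₁ n₂, fun n hn G _ hG => ?_⟩
  obtain ⟨H, s, k, hi, hs, hk, hg⟩ := hn₁ n n (le_trans (le_max_left _ _) hn) G hG (hcl n G hG)
  have hn3 : (n₂ : ℝ) ≤ n := by exact_mod_cast le_trans (le_max_right _ _) hn
  have hn0 : (0 : ℝ) ≤ n := Nat.cast_nonneg n
  have h4 : 4 ≤ δ * n := by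
    have h5 : 4 / δ ≤ n := by linarith
    rw [div_le_iff₀ hδ] at h5
    linarith
  refine ⟨H, s, k, hi, ?_, ?_, hg⟩
  · have h1 : 20 * ε * t ≤ δ := by
      have : 0 ≤ ε * t := by positivity
      nlinarith
    exact hs.trans (mul_le_mul_of_nonneg_right h1 hn0)
  · have hpow : (0 : ℝ) < 2 ^ t := by positivity
    have h1 : (n : ℝ) / 2 ^ t ≤ δ / 4 * n := by
      have h2 : (n : ℝ) / 2 ^ t = (1 / 2 : ℝ) ^ t * n := by
        rw [one_div, inv_pow]; field_simp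
      rw [h2]
      exact mul_le_mul_of_nonneg_right ht.le hn0
    have h2 : (1 - 1 / (2 : ℝ) ^ t) * (ε * n + 2) ≤ 1 * (ε * n + 2) := by
      apply mul_le_mul_of_nonneg_right _ (by positivity)
      have : (0 : ℝ) ≤ 1 / 2 ^ t := by positivity
      linarith
    have h3 : ε * n ≤ δ / 40 * n := by
      apply mul_le_mul_of_nonneg_right _ hn0
      have : 0 ≤ ε * t := by positivity
      nlinarith
    nlinarith

end Pool.Agent.Helper31.BE
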